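import Mathlib
import Pool.Agent.Y19.TP.Stm4

/-! Part BERN (helper339 for helper19): algebra of the tails of the Bernstein polynomials. -/

set_option autoImplicit false

namespace Pool.Agent.Y339.TP

open Polynomial Pool.Agent.Y19.TP

namespace BernAux

variable {K : Type} [Field K]

/-- the telescoping terms -/
noncomputable def G (K : Type) [Field K] (d j : ℕ) : K[X] :=
  C ((j * d.choose j : ℕ) : K) * X ^ (j - 1) * (1 - X) ^ (d - j)

lemma der_term (d j : ℕ) : derivative (C ((d.choose j : ℕ) : K) * X ^ j * (1 - X) ^ (d - j)) =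
    G K d j - G K d (j + 1) := by
  have h1 : ((j + 1) * d.choose (j + 1) : ℕ) = d.choose j * (d - j) := by
    rw [mul_comm, Nat.choose_succ_right_eq]
  unfold G
  rw [h1, derivative_mul, derivative_C_mul, derivative_X_pow, derivative_pow, derivative_sub,
    derivative_one, derivative_X, Nat.add_sub_cancel, Nat.sub_sub]
  simp only [Nat.cast_mul, map_mul]
  ring

lemma der (d m : ℕ) (hm : m ≤ d) : derivative (bern K d m) = G K d m := by
  unfold bern
  rw [derivative_sum, Finset.sum_congr rfl fun j _ => der_term (K := K) d j]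
  have h1 : Finset.Icc m d = Finset.Ico m (d + 1) := by
    ext j
    simp only [Finset.mem_Icc, Finset.mem_Ico]
    omega
  have h2 := Finset.sum_Ico_sub (fun j => G K d j) (show m ≤ d + 1 by omega)
  have h3 : ∑ j ∈ Finset.Ico m (d + 1), (G K d j - G K d (j + 1)) =
      - ∑ j ∈ Finset.Ico m (d + 1), (G K d (j + 1) - G K d j) := by
    rw [← Finset.sum_neg_distrib]
    exact Finset.sum_congr rfl fun j _ => by ring
  rw [h1, h3, h2]
  have h4 : G K d (d + 1) = 0 := by
    unfold G
    rw [Nat.choose_succ_self]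
    simp
  rw [h4]
  ring

lemma coeff_lt (d m i : ℕ) (hi : i < m) : (bern K d m).coeff i = 0 := by
  unfold bern
  rw [finsetSum_coeff]
  apply Finset.sum_eq_zero
  intro j hj
  have hj1 := (Finset.mem_Icc.1 hj).1
  have h1 : C ((d.choose j : ℕ) : K) * X ^ j * (1 - X) ^ (d - j) =
      X ^ j * (C ((d.choose j : ℕ) : K) * (1 - X) ^ (d - j)) := by ring
  rw [h1, coeff_X_pow_mul', if_neg (by omega)]

lemma natDegree_le (d m : ℕ) : (bern K d m).natDegree ≤ d := by
  unfold bern
  apply natDegree_sum_le_of_forall_le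
  intro j hj
  have hj2 := (Finset.mem_Icc.1 hj).2
  have h0 : (1 - X : K[X]).natDegree ≤ 1 := by
    refine (natDegree_sub_le _ _).trans ?_
    simp
  have h1 : ((1 - X : K[X]) ^ (d - j)).natDegree ≤ d - j := by
    refine natDegree_pow_le.trans ?_
    calc (d - j) * (1 - X : K[X]).natDegree ≤ (d - j) * 1 := Nat.mul_le_mul_left _ h0
      _ = d - j := mul_one _
  have h2 : (C ((d.choose j : ℕ) : K) * X ^ j).natDegree ≤ j := natDegree_C_mul_X_pow_le _ _
  exact natDegree_mul_le.trans (by omega)

lemma coeff_G (d m : ℕ) (i : ℕ) (hm : 1 ≤ m) (hi : m - 1 ≤ i) :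
    (G K d m).coeff i = ((m * d.choose m : ℕ) : K) * ((1 - X : K[X]) ^ (d - m)).coeff (i - (m - 1)) := by
  unfold G
  have h1 : C ((m * d.choose m : ℕ) : K) * X ^ (m - 1) * (1 - X) ^ (d - m) =
      C ((m * d.choose m : ℕ) : K) * (X ^ (m - 1) * (1 - X) ^ (d - m)) := by ring
  rw [h1, coeff_C_mul, coeff_X_pow_mul', if_pos hi]

end BernAux

open BernAux

theorem t_BERN : Pool.Agent.Y19.TP.BERN := by
  intro K _ _ d m hm hmd
  have hder : derivative (bern K d m) =
      C ((m * d.choose m : ℕ) : K) * X ^ (m - 1) * (1 - X) ^ (d - m) := der d m hmd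
  have hd1 : 1 ≤ d := hm.trans hmd
  have hch : (m * d.choose m : ℕ) = d * (d - 1).choose (m - 1) := by
    have h := Nat.add_one_mul_choose_eq (d - 1) (m - 1)
    rw [Nat.sub_add_cancel hd1, Nat.sub_add_cancel hm] at h
    rw [h, mul_comm]
  have hcm : (bern K d m).coeff m = ((d.choose m : ℕ) : K) := by
    have h1 := coeff_derivative (bern K d m) (m - 1)
    have h2 : (derivative (bern K d m)).coeff (m - 1) = ((m * d.choose m : ℕ) : K) := by
      rw [der d m hmd, coeff_G d m (m - 1) hm le_rfl, Nat.sub_self, coeff_zero_eq_eval_zero]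
      simp
    rw [h2, Nat.sub_add_cancel hm] at h1
    have h3 : (((m - 1 : ℕ) : K) + 1) = (m : K) := by
      rw [← Nat.cast_succ]
      congr 1
      omega
    rw [h3, Nat.cast_mul] at h1
    have h4 : (m : K) ≠ 0 := Nat.cast_ne_zero.2 (by omega)
    apply mul_right_cancel₀ h4
    rw [← h1, mul_comm]
  have hcd : (bern K d m).coeff d = (-1) ^ (d - m) * (((d - 1).choose (m - 1) : ℕ) : K) := by
    have h1 := coeff_derivative (bern K d m) (d - 1)
    have h2 : (derivative (bern K d m)).coeff (d - 1) =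
        ((m * d.choose m : ℕ) : K) * (-1) ^ (d - m) := by
      rw [der d m hmd, coeff_G d m (d - 1) hm (by omega)]
      congr 1
      have h0 : (1 - X : K[X]).natDegree ≤ 1 := by
        refine (natDegree_sub_le _ _).trans ?_
        simp
      have h3 := coeff_pow_of_natDegree_le (m := d - m) h0
      have h4 : (1 - X : K[X]).coeff 1 = -1 := by
        rw [coeff_sub, coeff_X_one, coeff_one]
        simp
      rw [h4, mul_one] at h3
      rw [← h3]
      congr 1
      omega
    rw [h2, Nat.sub_add_cancel hd1, hch] at h1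
    have h3 : (((d - 1 : ℕ) : K) + 1) = (d : K) := by
      rw [← Nat.cast_succ]
      congr 1
      omega
    rw [h3, Nat.cast_mul] at h1
    have h4 : (d : K) ≠ 0 := Nat.cast_ne_zero.2 (by omega)
    apply mul_right_cancel₀ h4
    rw [← h1]
    ring
  have hcd0 : (bern K d m).coeff d ≠ 0 := by
    rw [hcd]
    refine mul_ne_zero (pow_ne_zero _ (by norm_num)) (Nat.cast_ne_zero.2 ?_)
    exact (Nat.choose_pos (by omega)).ne'
  have hdeg : (bern K d m).natDegree = d :=
    natDegree_eq_of_le_of_coeff_ne_zero (natDegree_le d m) hcd0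
  refine ⟨hder, ?_, ?_, hdeg, hcm, fun i hi => coeff_lt d m i hi, ?_⟩
  · rw [← coeff_zero_eq_eval_zero]
    exact coeff_lt d m 0 (by omega)
  · unfold bern
    rw [eval_finsetSum, Finset.sum_eq_single_of_mem d (Finset.mem_Icc.2 ⟨hmd, le_rfl⟩)]
    · simp
    · intro j hj hne
      have hj2 := (Finset.mem_Icc.1 hj).2
      have h1 : d - j ≠ 0 := by omega
      simp [h1]
  · rw [leadingCoeff, hdeg, hcd]

end Pool.Agent.Y339.TP
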