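import Mathlib
import Pool.Agent.Y19.TP.Stm2

/-! Job TP-ISO (helper339 for helper19): the algebraic closures of `ℚ_p` and `ℚ_q` are isomorphic
fields. -/

set_option autoImplicit false

namespace Pool.Agent.Y339.TP

open Cardinal

lemma mk_padic_le (p : ℕ) [Fact p.Prime] : #ℚ_[p] ≤ 𝔠 := by
  have h1 : #ℚ_[p] ≤ #(CauSeq ℚ (padicNorm p)) :=
    mk_le_of_surjective (f := fun s => (Padic.mk s : ℚ_[p])) (Quotient.mk_surjective)
  have h2 : #(CauSeq ℚ (padicNorm p)) ≤ #(ℕ → ℚ) :=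
    mk_le_of_injective (f := fun s => (s : ℕ → ℚ)) Subtype.val_injective
  have h3 : #(ℕ → ℚ) ≤ 𝔠 := by
    rw [← power_def, mk_nat]
    rw [Cardinal.mkRat, aleph0_power_aleph0]
  exact h1.trans (h2.trans h3)

lemma mk_algCl (p : ℕ) [Fact p.Prime] : #(PadicAlgCl p) = 𝔠 := by
  apply le_antisymm
  · refine (Algebra.IsAlgebraic.cardinalMk_le_max ℚ_[p] (PadicAlgCl p)).trans ?_
    exact max_le (mk_padic_le p) aleph0_le_continuum
  · refine (continuum_le_cardinal_of_nontriviallyNormedField ℚ_[p]).trans ?_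
    exact mk_le_of_injective (algebraMap ℚ_[p] (PadicAlgCl p)).injective

theorem t_ISO : Pool.Agent.Y19.TP.ISO := by
  intro p q _ _
  apply IsAlgClosed.ringEquiv_of_equiv_of_charZero
  · rw [mk_algCl]
    exact aleph0_lt_continuum
  · exact Cardinal.eq.1 ((mk_algCl p).trans (mk_algCl q).symm)

end Pool.Agent.Y339.TP
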